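import Pool.Agent.Helper78.ZM.Stmts

/-!
Project ZM (MP_ccc3c9_an), module ZM-2: integration by parts for mixed discriminants of complex
Hessians (statement `Z2Stmt`).
-/

open MeasureTheory Filter Topology
open scoped ContDiff Real ENNReal

namespace Pool.Agent.Helper5.ZM

open Pool.Agent.Helper78.ZM

variable {n : ℕ}

/-- the first order operator `(1/2) (∂_{x_a} + c ∂_{y_a})` -/
noncomputable def W (c : ℂ) (a : Fin n) (f : Cn n → ℂ) (x : Cn n) : ℂ :=
  (1 / 2 : ℂ) * (fderiv ℝ f x (Pi.single a 1) + c * fderiv ℝ f x (Pi.single a Complex.I))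

theorem wd_eq (a : Fin n) (f : Cn n → ℂ) : wd a f = W (-Complex.I) a f := by
  funext x
  simp only [wd, W]
  ring

theorem wdb_eq (a : Fin n) (f : Cn n → ℂ) : wdb a f = W Complex.I a f := by
  funext x
  simp only [wdb, W]

theorem fderiv_smooth {f : Cn n → ℂ} (hf : ContDiff ℝ ∞ f) (v : Cn n) :
    ContDiff ℝ ∞ (fun x => fderiv ℝ f x v) :=
  (hf.fderiv_right (m := ∞) (by simp)).clm_apply contDiff_const

theorem W_smooth (c : ℂ) (a : Fin n) {f : Cn n → ℂ} (hf : ContDiff ℝ ∞ f) :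
    ContDiff ℝ ∞ (W c a f) := by
  unfold W
  exact contDiff_const.mul ((fderiv_smooth hf _).add (contDiff_const.mul (fderiv_smooth hf _)))

theorem sm_diff {f : Cn n → ℂ} (hf : ContDiff ℝ ∞ f) : Differentiable ℝ f :=
  hf.differentiable (by simp)

theorem W_mul (c : ℂ) (a : Fin n) {f g : Cn n → ℂ} (hf : ContDiff ℝ ∞ f) (hg : ContDiff ℝ ∞ g)
    (x : Cn n) :
    W c a (fun y => f y * g y) x = W c a f x * g x + f x * W c a g x := by
  unfold W
  rw [fderiv_fun_mul (sm_diff hf x) (sm_diff hg x)]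
  simp only [add_apply, smul_apply, smul_eq_mul]
  ring

theorem W_prod (c : ℂ) (a : Fin n) (s : Finset (Fin n)) (F : Fin n → Cn n → ℂ)
    (hF : ∀ j, ContDiff ℝ ∞ (F j)) (x : Cn n) :
    W c a (fun y => ∏ j ∈ s, F j y) x =
      ∑ l ∈ s, W c a (F l) x * ∏ j ∈ s.erase l, F j x := by
  have h : HasFDerivAt (fun y => ∏ j ∈ s, F j y)
      (∑ l ∈ s, (∏ j ∈ s.erase l, F j x) • fderiv ℝ (F l) x) x :=
    HasFDerivAt.finsetProd (fun j _ => (sm_diff (hF j) x).hasFDerivAt)
  unfold W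
  rw [h.fderiv]
  simp only [sum_apply, smul_apply, smul_eq_mul,
    Finset.mul_sum, ← Finset.sum_add_distrib]
  refine Finset.sum_congr rfl fun l _ => ?_
  ring

theorem W_comm (c d : ℂ) (a b : Fin n) {f : Cn n → ℂ} (hf : ContDiff ℝ ∞ f) :
    W c a (W d b f) = W d b (W c a f) := by
  funext x
  have hd : DifferentiableAt ℝ (fderiv ℝ f) x :=
    (hf.fderiv_right (m := ∞) (by simp)).differentiable (by simp) x
  have hsym : ∀ u v : Cn n, fderiv ℝ (fderiv ℝ f) x u v = fderiv ℝ (fderiv ℝ f) x v u := by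
    intro u v
    have h : IsSymmSndFDerivAt ℝ f x :=
      (hf.contDiffAt (x := x)).isSymmSndFDerivAt (by
        simp only [minSmoothness_of_isRCLikeNormedField]
        exact WithTop.coe_le_coe.mpr (le_top : (2 : ℕ∞) ≤ ⊤))
    exact h u v
  have key : ∀ (e : ℂ) (k : Fin n) (u : Cn n), fderiv ℝ (W e k f) x u =
      (1 / 2 : ℂ) * (fderiv ℝ (fderiv ℝ f) x u (Pi.single k 1) +
        e * fderiv ℝ (fderiv ℝ f) x u (Pi.single k Complex.I)) := by
    intro e k u
    have d1 : ∀ v : Cn n, HasFDerivAt (fun y => fderiv ℝ f y v)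
        ((fderiv ℝ (fderiv ℝ f) x).flip v) x := by
      intro v
      have h1 := hd.hasFDerivAt.clm_apply (hasFDerivAt_const v x)
      refine h1.congr_fderiv ?_
      ext u
      simp
    have h2 : HasFDerivAt (W e k f) ((1 / 2 : ℂ) • ((fderiv ℝ (fderiv ℝ f) x).flip (Pi.single k 1) +
        e • (fderiv ℝ (fderiv ℝ f) x).flip (Pi.single k Complex.I))) x :=
      ((d1 _).add ((d1 _).const_mul e)).const_mul (1 / 2 : ℂ)
    rw [h2.fderiv]
    simp
    ring
  have e1 : W c a (W d b f) x = (1 / 2 : ℂ) * (fderiv ℝ (W d b f) x (Pi.single a 1) +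
      c * fderiv ℝ (W d b f) x (Pi.single a Complex.I)) := rfl
  have e2 : W d b (W c a f) x = (1 / 2 : ℂ) * (fderiv ℝ (W c a f) x (Pi.single b 1) +
      d * fderiv ℝ (W c a f) x (Pi.single b Complex.I)) := rfl
  rw [e1, e2, key, key, key, key]
  rw [hsym (Pi.single b 1) (Pi.single a 1), hsym (Pi.single b 1) (Pi.single a Complex.I),
    hsym (Pi.single b Complex.I) (Pi.single a 1),
    hsym (Pi.single b Complex.I) (Pi.single a Complex.I)]
  ring

theorem W_supp (c : ℂ) (a : Fin n) {f : Cn n → ℂ} (hf : HasCompactSupport f) :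
    HasCompactSupport (W c a f) := by
  have h := hf.fderiv (𝕜 := ℝ)
  exact h.comp_left (g := fun L : Cn n →L[ℝ] ℂ =>
    (1 / 2 : ℂ) * (L (Pi.single a 1) + c * L (Pi.single a Complex.I))) (by simp)

theorem int_of {f : Cn n → ℂ} (hf : ContDiff ℝ ∞ f) (hc : HasCompactSupport f) :
    Integrable f := hf.continuous.integrable_of_hasCompactSupport hc

theorem int_fderiv {f : Cn n → ℂ} (hf : ContDiff ℝ ∞ f) (hc : HasCompactSupport f) (v : Cn n) :
    ∫ x, fderiv ℝ f x v = 0 := by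
  have hs := fderiv_smooth hf v
  have hcs : HasCompactSupport (fun x => fderiv ℝ f x v) :=
    (hc.fderiv (𝕜 := ℝ)).comp_left (g := fun L : Cn n →L[ℝ] ℂ => L v) (by simp)
  have h := integral_mul_fderiv_eq_neg_fderiv_mul_of_integrable (μ := (volume : Measure (Cn n)))
    (f := fun _ : Cn n => (1 : ℂ)) (g := f) (v := v) (by simp) (by simpa using int_of hs hcs)
    (by simpa using int_of hf hc) (fun x _ => differentiableAt_const _) (fun x _ => sm_diff hf x)
  simpa using h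

theorem int_W (c : ℂ) (a : Fin n) {f : Cn n → ℂ} (hf : ContDiff ℝ ∞ f)
    (hc : HasCompactSupport f) : ∫ x, W c a f x = 0 := by
  have hcs : ∀ v : Cn n, HasCompactSupport (fun x => fderiv ℝ f x v) := fun v =>
    (hc.fderiv (𝕜 := ℝ)).comp_left (g := fun L : Cn n →L[ℝ] ℂ => L v) (by simp)
  unfold W
  rw [integral_const_mul, integral_add (int_of (fderiv_smooth hf _) (hcs _))
    ((int_of (fderiv_smooth hf _) (hcs _)).const_mul c), integral_const_mul,
    int_fderiv hf hc, int_fderiv hf hc]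
  simp

theorem antisym (i l : Fin n) (hl : i ≠ l) (T : Equiv.Perm (Fin n) → ℂ)
    (hT : ∀ σ, T (σ * Equiv.swap i l) = T σ) :
    ∑ σ : Equiv.Perm (Fin n), ((Equiv.Perm.sign σ : ℤ) : ℂ) * T σ = 0 := by
  have h := Equiv.sum_comp (Equiv.mulRight (Equiv.swap i l))
    (fun σ : Equiv.Perm (Fin n) => ((Equiv.Perm.sign σ : ℤ) : ℂ) * T σ)
  simp only [Equiv.coe_mulRight, hT, Equiv.Perm.sign_mul, Equiv.Perm.sign_swap hl] at h
  simp only [mul_neg, mul_one, Units.val_neg, Int.cast_neg, neg_mul,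
    Finset.sum_neg_distrib] at h
  have h2 := h
  linear_combination (-1 / 2 : ℂ) * h2

theorem vanish (c : ℂ) (i : Fin n) (B : Fin n → Fin n → Cn n → ℂ)
    (hB : ∀ j a, ContDiff ℝ ∞ (B j a))
    (hs : ∀ j a b, W c b (B j a) = W c a (B j b)) (x : Cn n) :
    ∑ σ : Equiv.Perm (Fin n), ((Equiv.Perm.sign σ : ℤ) : ℂ) *
      W c (σ i) (fun y => ∏ j ∈ Finset.univ.erase i, B j (σ j) y) x = 0 := by
  have h1 : ∀ σ : Equiv.Perm (Fin n),
      W c (σ i) (fun y => ∏ j ∈ Finset.univ.erase i, B j (σ j) y) x =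
      ∑ l ∈ Finset.univ.erase i, W c (σ i) (B l (σ l)) x *
        ∏ j ∈ (Finset.univ.erase i).erase l, B j (σ j) x := fun σ =>
    W_prod c (σ i) (Finset.univ.erase i) (fun j => B j (σ j)) (fun j => hB j (σ j)) x
  simp_rw [h1, Finset.mul_sum]
  rw [Finset.sum_comm]
  refine Finset.sum_eq_zero fun l hl => ?_
  have hil : i ≠ l := (Finset.ne_of_mem_erase hl).symm
  refine antisym i l hil _ fun σ => ?_
  have e1 : (σ * Equiv.swap i l) i = σ l := by simp
  have e2 : (σ * Equiv.swap i l) l = σ i := by simp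
  rw [e1, e2, hs l (σ i) (σ l)]
  congr 1
  refine Finset.prod_congr rfl fun j hj => ?_
  have hjl : j ≠ l := Finset.ne_of_mem_erase hj
  have hji : j ≠ i := Finset.ne_of_mem_erase (Finset.mem_of_mem_erase hj)
  rw [Equiv.Perm.mul_apply, Equiv.swap_apply_of_ne_of_ne hji hjl]

theorem ofReal_smooth {f : Cn n → ℝ} (hf : ContDiff ℝ ∞ f) :
    ContDiff ℝ ∞ (fun x => (f x : ℂ)) := Complex.ofRealCLM.contDiff.comp hf

theorem levi_W (h0 : Z0Stmt) {f : Cn n → ℝ} (hf : ContDiff ℝ ∞ f) (x : Cn n) (j k : Fin n) :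
    levi f x j k = W (-Complex.I) j (W Complex.I k (fun z => (f z : ℂ))) x := by
  have h2 : ContDiffAt ℝ 2 f x :=
    (hf.of_le (WithTop.coe_le_coe.mpr (le_top : (2 : ℕ∞) ≤ ⊤))).contDiffAt
  rw [h0.2.2.2.2.2 n f x h2 j k, wd_eq]
  congr 1

/-- the sign of a permutation as a complex number -/
noncomputable def sg (σ : Equiv.Perm (Fin n)) : ℂ := ((Equiv.Perm.sign σ : ℤ) : ℂ)

/-- `∂_a ∂̄_b f` -/
noncomputable def AA (f : Cn n → ℂ) (a b : Fin n) : Cn n → ℂ :=
  W (-Complex.I) a (W Complex.I b f)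

theorem AA_smooth {f : Cn n → ℂ} (hf : ContDiff ℝ ∞ f) (a b : Fin n) :
    ContDiff ℝ ∞ (AA f a b) := W_smooth _ _ (W_smooth _ _ hf)

/-- the product over `j ≠ i` -/
noncomputable def PP (i : Fin n) (V : Fin n → Cn n → ℂ) (σ τ : Equiv.Perm (Fin n)) (x : Cn n) : ℂ :=
  ∏ j ∈ Finset.univ.erase i, AA (V j) (σ j) (τ j) x

theorem PP_smooth (i : Fin n) {V : Fin n → Cn n → ℂ} (hV : ∀ j, ContDiff ℝ ∞ (V j))
    (σ τ : Equiv.Perm (Fin n)) : ContDiff ℝ ∞ (PP i V σ τ) := by
  unfold PP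
  exact contDiff_prod fun j _ => AA_smooth (hV j) _ _

theorem van1 (i : Fin n) {V : Fin n → Cn n → ℂ} (hV : ∀ j, ContDiff ℝ ∞ (V j))
    (τ : Equiv.Perm (Fin n)) (x : Cn n) :
    ∑ σ : Equiv.Perm (Fin n), sg σ * W (-Complex.I) (σ i) (PP i V σ τ) x = 0 :=
  vanish (-Complex.I) i (fun j a => AA (V j) a (τ j)) (fun j _ => AA_smooth (hV j) _ _)
    (fun j _ _ => W_comm _ _ _ _ (W_smooth _ _ (hV j))) x

theorem van2 (i : Fin n) {V : Fin n → Cn n → ℂ} (hV : ∀ j, ContDiff ℝ ∞ (V j))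
    (σ : Equiv.Perm (Fin n)) (x : Cn n) :
    ∑ τ : Equiv.Perm (Fin n), sg τ * W Complex.I (τ i) (PP i V σ τ) x = 0 := by
  refine vanish Complex.I i (fun j b => AA (V j) (σ j) b) (fun j a => AA_smooth (hV j) _ _)
    (fun j a b => ?_) x
  have e : ∀ b, AA (V j) (σ j) b = W Complex.I b (W (-Complex.I) (σ j) (V j)) := fun b =>
    W_comm _ _ _ _ (hV j)
  rw [e, e]
  exact W_comm _ _ _ _ (W_smooth _ _ (hV j))

theorem mixD_eq (i : Fin n) (H : Fin n → Matrix (Fin n) (Fin n) ℂ) :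
    mixD H = ∑ σ : Equiv.Perm (Fin n), ∑ τ : Equiv.Perm (Fin n),
      sg σ * sg τ * (H i (σ i) (τ i) * ∏ j ∈ Finset.univ.erase i, H j (σ j) (τ j)) := by
  unfold mixD sg
  refine Finset.sum_congr rfl fun σ _ => Finset.sum_congr rfl fun τ _ => ?_
  rw [Finset.mul_prod_erase Finset.univ (fun j => H j (σ j) (τ j)) (Finset.mem_univ i)]

theorem mix_V (h0 : Z0Stmt) (i : Fin n) (u : Fin n → Cn n → ℝ) (hu : ∀ j, ContDiff ℝ ∞ (u j))
    (f : Cn n → ℝ) (hf : ContDiff ℝ ∞ f) (x : Cn n) :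
    mixD (fun j => levi (Function.update u i f j) x) =
      ∑ σ : Equiv.Perm (Fin n), ∑ τ : Equiv.Perm (Fin n),
        sg σ * sg τ * (AA (fun z => (f z : ℂ)) (σ i) (τ i) x *
          PP i (fun j z => (u j z : ℂ)) σ τ x) := by
  rw [mixD_eq i]
  refine Finset.sum_congr rfl fun σ _ => Finset.sum_congr rfl fun τ _ => ?_
  congr 2
  · simp only [Function.update_self]
    exact levi_W h0 hf x _ _
  · unfold PP
    refine Finset.prod_congr rfl fun j hj => ?_
    rw [Function.update_of_ne (Finset.ne_of_mem_erase hj)]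
    exact levi_W h0 (hu j) x _ _

theorem z2 (h0 : Z0Stmt) : Z2Stmt := by
  intro n u hu χ hχ hc i
  obtain ⟨V, hVdef⟩ : ∃ V : Fin n → Cn n → ℂ, V = fun j z => (u j z : ℂ) := ⟨_, rfl⟩
  obtain ⟨X, hXdef⟩ : ∃ X : Cn n → ℂ, X = fun z => (χ z : ℂ) := ⟨_, rfl⟩
  have hV : ∀ j, ContDiff ℝ ∞ (V j) := fun j => by
    rw [hVdef]; exact ofReal_smooth (hu j)
  have hX : ContDiff ℝ ∞ X := by rw [hXdef]; exact ofReal_smooth hχ
  have hXc : HasCompactSupport X := by
    rw [hXdef]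
    exact hc.comp_left (g := fun r : ℝ => (r : ℂ)) (by simp)
  have hm1 : ∀ x, mixD (fun j => levi (u j) x) =
      ∑ σ : Equiv.Perm (Fin n), ∑ τ : Equiv.Perm (Fin n),
        sg σ * sg τ * (AA (V i) (σ i) (τ i) x * PP i V σ τ x) := by
    intro x
    have h := mix_V h0 i u hu (u i) (hu i) x
    rw [Function.update_eq_self] at h
    rw [h, hVdef]
  have hm2 : ∀ x, mixD (fun j => levi (Function.update u i χ j) x) =
      ∑ σ : Equiv.Perm (Fin n), ∑ τ : Equiv.Perm (Fin n),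
        sg σ * sg τ * (AA X (σ i) (τ i) x * PP i V σ τ x) := by
    intro x
    rw [mix_V h0 i u hu χ hχ x, hVdef, hXdef]
  -- the two vector fields
  obtain ⟨Y, hY⟩ : ∃ Y : Equiv.Perm (Fin n) → Equiv.Perm (Fin n) → Cn n → ℂ,
      Y = fun σ τ x => X x * (PP i V σ τ x * W Complex.I (τ i) (V i) x) := ⟨_, rfl⟩
  obtain ⟨Z, hZ⟩ : ∃ Z : Equiv.Perm (Fin n) → Equiv.Perm (Fin n) → Cn n → ℂ,
      Z = fun σ τ x => V i x * (PP i V σ τ x * W (-Complex.I) (σ i) X x) := ⟨_, rfl⟩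
  have hYs : ∀ σ τ, ContDiff ℝ ∞ (Y σ τ) := fun σ τ => by
    rw [hY]; exact hX.mul ((PP_smooth i hV σ τ).mul (W_smooth _ _ (hV i)))
  have hZs : ∀ σ τ, ContDiff ℝ ∞ (Z σ τ) := fun σ τ => by
    rw [hZ]; exact (hV i).mul ((PP_smooth i hV σ τ).mul (W_smooth _ _ hX))
  have hYc : ∀ σ τ, HasCompactSupport (Y σ τ) := fun σ τ => by
    rw [hY]; exact hXc.mul_right
  have hZc : ∀ σ τ, HasCompactSupport (Z σ τ) := fun σ τ => by
    rw [hZ]; exact ((W_supp _ _ hXc).mul_left).mul_left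
  obtain ⟨E, hE⟩ : ∃ E : Cn n → ℂ, E = fun x => ∑ σ : Equiv.Perm (Fin n),
      ∑ τ : Equiv.Perm (Fin n), sg σ * sg τ *
        (W (-Complex.I) (σ i) (Y σ τ) x - W Complex.I (τ i) (Z σ τ) x) := ⟨_, rfl⟩
  have hterm : ∀ σ τ : Equiv.Perm (Fin n), Integrable (fun x => sg σ * sg τ *
      (W (-Complex.I) (σ i) (Y σ τ) x - W Complex.I (τ i) (Z σ τ) x)) := fun σ τ =>
    ((int_of (W_smooth _ _ (hYs σ τ)) (W_supp _ _ (hYc σ τ))).sub
      (int_of (W_smooth _ _ (hZs σ τ)) (W_supp _ _ (hZc σ τ)))).const_mul _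
  have hEi : Integrable E := by
    rw [hE]
    exact integrable_finsetSum _ fun σ _ => integrable_finsetSum _ fun τ _ => hterm σ τ
  have hE0 : ∫ x, E x = 0 := by
    rw [hE]
    simp only []
    rw [integral_finsetSum _ fun σ _ => integrable_finsetSum _ fun τ _ => hterm σ τ]
    refine Finset.sum_eq_zero fun σ _ => ?_
    rw [integral_finsetSum _ fun τ _ => hterm σ τ]
    refine Finset.sum_eq_zero fun τ _ => ?_
    rw [integral_const_mul, integral_sub (int_of (W_smooth _ _ (hYs σ τ)) (W_supp _ _ (hYc σ τ)))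
      (int_of (W_smooth _ _ (hZs σ τ)) (W_supp _ _ (hZc σ τ))), int_W _ _ (hYs σ τ) (hYc σ τ),
      int_W _ _ (hZs σ τ) (hZc σ τ)]
    simp
  have hv1 : ∀ x, ∑ σ : Equiv.Perm (Fin n), ∑ τ : Equiv.Perm (Fin n), sg σ * sg τ *
      (X x * (W (-Complex.I) (σ i) (PP i V σ τ) x * W Complex.I (τ i) (V i) x)) = 0 := by
    intro x
    rw [Finset.sum_comm]
    refine Finset.sum_eq_zero fun τ _ => ?_
    have h := van1 i hV τ x
    calc _ = (sg τ * X x * W Complex.I (τ i) (V i) x) * ∑ σ : Equiv.Perm (Fin n), sg σ *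
          W (-Complex.I) (σ i) (PP i V σ τ) x := by
            rw [Finset.mul_sum]
            refine Finset.sum_congr rfl fun σ _ => ?_
            ring
      _ = 0 := by rw [h, mul_zero]
  have hv2 : ∀ x, ∑ σ : Equiv.Perm (Fin n), ∑ τ : Equiv.Perm (Fin n), sg σ * sg τ *
      (V i x * (W Complex.I (τ i) (PP i V σ τ) x * W (-Complex.I) (σ i) X x)) = 0 := by
    intro x
    refine Finset.sum_eq_zero fun σ _ => ?_
    have h := van2 i hV σ x
    calc _ = (sg σ * V i x * W (-Complex.I) (σ i) X x) * ∑ τ : Equiv.Perm (Fin n), sg τ *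
          W Complex.I (τ i) (PP i V σ τ) x := by
            rw [Finset.mul_sum]
            refine Finset.sum_congr rfl fun τ _ => ?_
            ring
      _ = 0 := by rw [h, mul_zero]
  have hpt : ∀ x, X x * mixD (fun j => levi (u j) x) -
      V i x * mixD (fun j => levi (Function.update u i χ j) x) = E x := by
    intro x
    have h1 := hv1 x
    have h2 := hv2 x
    rw [hm1, hm2, hE]
    simp only []
    have e1 : ∀ σ τ : Equiv.Perm (Fin n), W (-Complex.I) (σ i) (Y σ τ) x =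
        W (-Complex.I) (σ i) X x * (PP i V σ τ x * W Complex.I (τ i) (V i) x) +
          X x * (W (-Complex.I) (σ i) (PP i V σ τ) x * W Complex.I (τ i) (V i) x +
            PP i V σ τ x * AA (V i) (σ i) (τ i) x) := by
      intro σ τ
      rw [hY]
      simp only []
      rw [W_mul _ _ hX ((PP_smooth i hV σ τ).mul (W_smooth _ _ (hV i))),
        W_mul _ _ (PP_smooth i hV σ τ) (W_smooth _ _ (hV i))]
      rfl
    have e2 : ∀ σ τ : Equiv.Perm (Fin n), W Complex.I (τ i) (Z σ τ) x =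
        W Complex.I (τ i) (V i) x * (PP i V σ τ x * W (-Complex.I) (σ i) X x) +
          V i x * (W Complex.I (τ i) (PP i V σ τ) x * W (-Complex.I) (σ i) X x +
            PP i V σ τ x * AA X (σ i) (τ i) x) := by
      intro σ τ
      rw [hZ]
      simp only []
      rw [W_mul _ _ (hV i) ((PP_smooth i hV σ τ).mul (W_smooth _ _ hX)),
        W_mul _ _ (PP_smooth i hV σ τ) (W_smooth _ _ hX)]
      have e3 : AA X (σ i) (τ i) = W Complex.I (τ i) (W (-Complex.I) (σ i) X) :=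
        W_comm _ _ _ _ hX
      rw [e3]
    have e4 : (∑ σ : Equiv.Perm (Fin n), ∑ τ : Equiv.Perm (Fin n), sg σ * sg τ *
        (W (-Complex.I) (σ i) (Y σ τ) x - W Complex.I (τ i) (Z σ τ) x)) =
        (∑ σ : Equiv.Perm (Fin n), ∑ τ : Equiv.Perm (Fin n), sg σ * sg τ *
          (X x * (W (-Complex.I) (σ i) (PP i V σ τ) x * W Complex.I (τ i) (V i) x))) -
        (∑ σ : Equiv.Perm (Fin n), ∑ τ : Equiv.Perm (Fin n), sg σ * sg τ *
          (V i x * (W Complex.I (τ i) (PP i V σ τ) x * W (-Complex.I) (σ i) X x))) +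
        (X x * (∑ σ : Equiv.Perm (Fin n), ∑ τ : Equiv.Perm (Fin n),
          sg σ * sg τ * (AA (V i) (σ i) (τ i) x * PP i V σ τ x)) -
        V i x * (∑ σ : Equiv.Perm (Fin n), ∑ τ : Equiv.Perm (Fin n),
          sg σ * sg τ * (AA X (σ i) (τ i) x * PP i V σ τ x))) := by
      simp only [Finset.mul_sum]
      simp only [← Finset.sum_sub_distrib, ← Finset.sum_add_distrib]
      refine Finset.sum_congr rfl fun σ _ => Finset.sum_congr rfl fun τ _ => ?_
      rw [e1, e2]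
      ring
    rw [e4, h1, h2]
    ring
  have hi1 : Integrable (fun x => X x * mixD (fun j => levi (u j) x)) := by
    simp_rw [hm1]
    refine int_of (hX.mul ?_) hXc.mul_right
    refine ContDiff.sum fun σ _ => ContDiff.sum fun τ _ => ?_
    exact contDiff_const.mul ((AA_smooth (hV i) _ _).mul (PP_smooth i hV σ τ))
  have hfin : ∫ x, X x * mixD (fun j => levi (u j) x) =
      ∫ x, V i x * mixD (fun j => levi (Function.update u i χ j) x) := by
    have h2 : (fun x => V i x * mixD (fun j => levi (Function.update u i χ j) x)) =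
        fun x => X x * mixD (fun j => levi (u j) x) - E x := by
      funext x
      rw [← hpt x]
      ring
    rw [h2, integral_sub hi1 hEi, hE0, sub_zero]
  rw [hXdef, hVdef] at hfin
  exact hfin

end Pool.Agent.Helper5.ZM
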